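import Pool.Agent.K1H44.BC.Plan

/-!
# Project BC (helper44), piece SH: the number of primes in the block is at least a power of `x`
-/

set_option autoImplicit false

open Finset Filter

namespace Pool.Agent.K1H77.BC

open Pool.Agent.K1H44.BC

theorem t_SH : S_SH := by
  rintro ⟨δ₀, η, h0, h1, hη, X₀, hX₀, H⟩ c hc
  obtain ⟨c', hc'0, hc'1, hc'l⟩ : ∃ c' : ℝ, 0 < c' ∧ c' ≤ 1 ∧ c' ≤ Real.log (1 + c) :=
    ⟨min (Real.log (1 + c)) 1, lt_min (Real.log_pos (by linarith)) one_pos, min_le_right _ _,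
      min_le_left _ _⟩
  obtain ⟨δ, hδ, hδ0, hδ6⟩ : ∃ δ : ℝ, 0 < δ ∧ δ < δ₀ ∧ δ ≤ 1 / 6 := by
    refine ⟨min δ₀ (1 / 3) / 2, by positivity, ?_, ?_⟩
    · have := min_le_left δ₀ (1 / 3)
      linarith
    · have := min_le_right δ₀ (1 / 3)
      linarith
  have E1 : ∀ᶠ x : ℝ in atTop, 2 / c' ≤ x ^ (δ₀ - δ) :=
    (tendsto_rpow_atTop (by linarith)).eventually_ge_atTop _
  have E3 : ∀ᶠ x : ℝ in atTop, Real.log x ≤ (η * c' / 4) * x ^ (1 - 2 * δ) := by
    have h := (isLittleO_log_rpow_atTop (r := 1 - 2 * δ) (by linarith)).bound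
      (c := η * c' / 4) (by positivity)
    filter_upwards [h, eventually_ge_atTop (1 : ℝ)] with x hx hx1
    rw [Real.norm_of_nonneg (Real.log_nonneg hx1),
      Real.norm_of_nonneg (Real.rpow_nonneg (by linarith) _)] at hx
    exact hx
  obtain ⟨N, hN⟩ := eventually_atTop.1 (tendsto_natCast_atTop_atTop.eventually (E1.and E3))
  refine ⟨δ, hδ, max N X₀, fun x y hx hxy hle => ?_⟩
  by_contra hlt
  rw [not_le] at hlt
  obtain ⟨hA, hB⟩ := hN x (le_trans (le_max_left _ _) hx)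
  have hxX : X₀ ≤ x := le_trans (le_max_right _ _) hx
  have hx2 : (2 : ℝ) ≤ x := by exact_mod_cast le_trans hX₀ hxX
  have hx0 : (0 : ℝ) < x := by linarith
  have hlog : 0 < Real.log x := Real.log_pos (by linarith)
  obtain ⟨s, hs⟩ : ∃ s : ℕ, s = (PB x y).card := ⟨_, rfl⟩
  rw [← hs] at hle hlt
  have hs1 : (1 : ℝ) ≤ s := by
    rcases Nat.eq_zero_or_pos s with h | h
    · rw [h, pow_zero] at hle
      linarith
    · exact_mod_cast h
  have hs0 : (0 : ℝ) < s := by linarith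
  -- the block is long
  have hlen : c' * x / s ≤ (y : ℝ) - x := by
    have h3 : (0 : ℝ) < (y : ℝ) / x := by
      have : (0 : ℝ) < y := lt_of_lt_of_le hx0 (by exact_mod_cast hxy)
      positivity
    have h4 : Real.log (1 + c) ≤ s * ((y : ℝ) / x - 1) := by
      calc Real.log (1 + c) ≤ Real.log (((y : ℝ) / x) ^ s) := Real.log_le_log (by linarith) hle
        _ = s * Real.log ((y : ℝ) / x) := by rw [Real.log_pow]
        _ ≤ s * ((y : ℝ) / x - 1) :=
          mul_le_mul_of_nonneg_left (Real.log_le_sub_one_of_pos h3) hs0.le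
    have h5 : c' ≤ s * ((y : ℝ) / x - 1) := hc'l.trans h4
    rw [div_le_iff₀ hs0]
    calc c' * x ≤ (s * ((y : ℝ) / x - 1)) * x := mul_le_mul_of_nonneg_right h5 hx0.le
      _ = (y - x) * s := by
        field_simp
  -- size of `c' x / s`
  have hbig : 2 * (x : ℝ) ^ (1 - δ₀) ≤ c' * x / s := by
    have h3 : (x : ℝ) ^ (1 - δ) = (x : ℝ) ^ (1 - δ₀) * (x : ℝ) ^ (δ₀ - δ) := by
      rw [← Real.rpow_add hx0]
      congr 1
      ring
    have h4 : 2 * (x : ℝ) ^ (1 - δ₀) ≤ c' * (x : ℝ) ^ (1 - δ) := by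
      rw [h3]
      have h5 : 2 ≤ c' * (x : ℝ) ^ (δ₀ - δ) := by
        rw [div_le_iff₀ hc'0] at hA
        linarith
      have h6 : (0 : ℝ) ≤ (x : ℝ) ^ (1 - δ₀) := Real.rpow_nonneg hx0.le _
      nlinarith
    refine h4.trans ?_
    rw [le_div_iff₀ hs0, mul_assoc]
    refine mul_le_mul_of_nonneg_left ?_ hc'0.le
    calc (x : ℝ) ^ (1 - δ) * s ≤ (x : ℝ) ^ (1 - δ) * (x : ℝ) ^ δ :=
          mul_le_mul_of_nonneg_left hlt.le (Real.rpow_nonneg hx0.le _)
      _ = x := by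
        rw [← Real.rpow_add hx0, sub_add_cancel, Real.rpow_one]
  have hge1 : (1 : ℝ) ≤ (x : ℝ) ^ (1 - δ₀) := Real.one_le_rpow (by linarith) (by linarith)
  obtain ⟨Y, hY⟩ : ∃ Y : ℕ, Y = ⌊c' * x / s⌋₊ := ⟨_, rfl⟩
  have hYle : (Y : ℝ) ≤ c' * x / s := by
    rw [hY]
    exact Nat.floor_le (by positivity)
  have hYgt : c' * x / s < Y + 1 := by
    rw [hY]
    exact Nat.lt_floor_add_one _
  have hY1 : (x : ℝ) ^ (1 - δ₀) ≤ Y := by linarith
  have hY2 : c' * x / s / 2 ≤ Y := by linarith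
  have hYx : Y ≤ x := by
    have h3 : c' * x / s ≤ x := by
      rw [div_le_iff₀ hs0]
      nlinarith
    exact_mod_cast hYle.trans h3
  have hXY : x + Y ≤ y := by
    have h3 : (x : ℝ) + Y ≤ y := by linarith
    exact_mod_cast h3
  have hH := H x Y hxX hY1 hYx
  have hsub : (Ioc x (x + Y)).filter Nat.Prime ⊆ PB x y := by
    intro p hp
    rw [mem_filter, mem_Ioc] at hp
    unfold PB
    rw [mem_filter, mem_Icc]
    exact ⟨⟨hp.1.1.le, hp.1.2.trans hXY⟩, hp.2⟩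
  have hcard : (((Ioc x (x + Y)).filter Nat.Prime).card : ℝ) ≤ s := by
    rw [hs]
    exact_mod_cast card_le_card hsub
  have h7 : η * Y ≤ s * Real.log x := by
    have h8 := hH.trans hcard
    rwa [div_le_iff₀ hlog] at h8
  have h9 : η * (c' * x / s / 2) ≤ s * Real.log x :=
    (mul_le_mul_of_nonneg_left hY2 hη.le).trans h7
  have h10 : η * c' * x ≤ 2 * (s : ℝ) ^ 2 * Real.log x := by
    have h11 : η * (c' * x / s / 2) * (2 * s) ≤ s * Real.log x * (2 * s) :=
      mul_le_mul_of_nonneg_right h9 (by linarith)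
    have h12 : η * (c' * x / s / 2) * (2 * s) = η * c' * x := by
      field_simp
    rw [h12] at h11
    calc η * c' * x ≤ s * Real.log x * (2 * s) := h11
      _ = 2 * (s : ℝ) ^ 2 * Real.log x := by ring
  have h13 : (s : ℝ) ^ 2 ≤ (x : ℝ) ^ (2 * δ) := by
    calc (s : ℝ) ^ 2 ≤ ((x : ℝ) ^ δ) ^ 2 := pow_le_pow_left₀ hs0.le hlt.le 2
      _ = (x : ℝ) ^ (2 * δ) := by
        rw [← Real.rpow_natCast, ← Real.rpow_mul hx0.le]
        congr 1
        push_cast
        ring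
  have h14 : 2 * (s : ℝ) ^ 2 * Real.log x ≤ η * c' / 2 * x := by
    calc 2 * (s : ℝ) ^ 2 * Real.log x ≤
        2 * (x : ℝ) ^ (2 * δ) * ((η * c' / 4) * (x : ℝ) ^ (1 - 2 * δ)) := by
          refine mul_le_mul (by linarith) hB hlog.le ?_
          have := Real.rpow_nonneg hx0.le (2 * δ)
          linarith
      _ = η * c' / 2 * ((x : ℝ) ^ (2 * δ) * (x : ℝ) ^ (1 - 2 * δ)) := by ring
      _ = η * c' / 2 * x := by
        rw [← Real.rpow_add hx0]
        have : 2 * δ + (1 - 2 * δ) = 1 := by ring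
        rw [this, Real.rpow_one]
  have h15 : 0 < η * c' * x := by positivity
  linarith

end Pool.Agent.K1H77.BC
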